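import Pool.Agent.Q61.MP38e

set_option autoImplicit false

open Q61.M38

namespace Pool.Agent.Results.MP_a38b16_an.NotNaturalConstraint

/-- Negative answer, with `N = 1` and `Ω = ℝ`: for ALL `μ₁ ≠ μ₂` and `β = √(μ₁ μ₂)` there are
`lam₁, lam₂ > 0` and a minimizer `(u,v)` of `E_β` on `𝒩_β` which is not a weak solution of the system, that is,
not a critical point of `E_β` on `H¹(ℝ) × H¹(ℝ)`. -/
theorem result (μ₁ μ₂ : ℝ) (h1 : 0 < μ₁) (h2 : 0 < μ₂) (hne : μ₁ ≠ μ₂) :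
    ∃ lam₁ lam₂ : ℝ, 0 < lam₁ ∧ 0 < lam₂ ∧ ∃ u du v dv : ℝ → ℝ,
      IsMinimizer μ₁ μ₂ lam₁ lam₂ (Real.sqrt (μ₁ * μ₂)) u du v dv ∧
      ¬ IsWeakSolution μ₁ μ₂ lam₁ lam₂ (Real.sqrt (μ₁ * μ₂)) u du v dv ∧
      ¬ IsCritical μ₁ μ₂ lam₁ lam₂ (Real.sqrt (μ₁ * μ₂)) u du v dv :=
  main μ₁ μ₂ h1 h2 hne

end Pool.Agent.Results.MP_a38b16_an.NotNaturalConstraint
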